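import Pool.Agent.Helper36.TC.Defs

/-! # Fubini step (module Fub of MP_9e79c9_gt) -/

set_option autoImplicit false
set_option linter.unusedSectionVars false

open MeasureTheory Set Metric Module
open scoped Topology

namespace TC

variable {V : Type*} [NormedAddCommGroup V] [NormedSpace ℝ V] [FiniteDimensional ℝ V]
  [MeasurableSpace V] [BorelSpace V]

theorem fub_integrable (μ : Measure V) [μ.IsAddHaarMeasure] {F : V → ℝ} (hF : Measurable F)
    (C : ℝ) (hC : ∀ x, |F x| ≤ C) : Integrable F (μ.restrict (closedBall (0 : V) 1)) := by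
  haveI : IsFiniteMeasure (μ.restrict (closedBall (0 : V) 1)) :=
    ⟨by rw [Measure.restrict_apply_univ]; exact measure_closedBall_lt_top⟩
  exact Integrable.of_bound hF.aestronglyMeasurable C (Filter.Eventually.of_forall hC)

theorem fub_meas_sign_right (y : V) : Measurable (fun x : V => Real.sign (ND y x)) :=
  measurable_rsign.comp (ND y).measurable

theorem fub_meas_sign_left (x : V) : Measurable (fun y : V => Real.sign (ND y x)) :=
  measurable_rsign.comp (measurable_nd_apply x)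

theorem fub_abs_mul_le (r s t : ℝ) (h : |s| ≤ t) : |Real.sign r * s| ≤ t := by
  rw [abs_mul]
  calc |Real.sign r| * |s| ≤ 1 * |s| := by
        gcongr
        exact abs_sign_le r
    _ ≤ t := by rwa [one_mul]

theorem fub_int1 (μ : Measure V) [μ.IsAddHaarMeasure] (y a : V) :
    Integrable (fun x : V => Real.sign (ND y x) * ND x a)
      (μ.restrict (closedBall (0 : V) 1)) :=
  fub_integrable μ ((fub_meas_sign_right y).mul (measurable_nd_apply a)) ‖a‖
    (fun x => fub_abs_mul_le _ _ _ (nd_abs_le x a))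

/-- Formula (1). -/
theorem fub_formula (μ : Measure V) [μ.IsAddHaarMeasure] [Nontrivial V]
    (htr : ∀ (w : V →L[ℝ] ℝ) (a : V), w a = 0 →
      ∫ x in closedBall (0:V) 1, Real.sign (w x) * ND x a ∂μ = 0)
    {y : V} (hy : Smooth y) (a : V) :
    ∫ x in closedBall (0:V) 1, Real.sign (ND y x) * ND x a ∂μ =
      (ND y a / ‖y‖) * ∫ x in closedBall (0:V) 1, Real.sign (ND y x) * ND x y ∂μ := by
  have hy0 : ‖y‖ ≠ 0 := norm_ne_zero_iff.2 (smooth_ne_zero hy)
  have h1 := htr (ND y) (a - (ND y a / ‖y‖) • y) (by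
    rw [map_sub, map_smul, nd_self hy, smul_eq_mul, div_mul_cancel₀ _ hy0, sub_self])
  have h2 : (fun x : V => Real.sign (ND y x) * ND x (a - (ND y a / ‖y‖) • y)) =
      fun x : V => Real.sign (ND y x) * ND x a -
        (ND y a / ‖y‖) * (Real.sign (ND y x) * ND x y) := by
    funext x
    rw [map_sub, map_smul, smul_eq_mul]
    ring
  rw [h2, integral_sub (fub_int1 μ y a) ((fub_int1 μ y y).const_mul _), integral_const_mul] at h1
  linarith

theorem fub_step (μ : Measure V) [μ.IsAddHaarMeasure] [Nontrivial V] {L : ℝ}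
    (hL : ∀ z : V, ∫ x in closedBall (0:V) 1, |ND x z| ∂μ = L * ‖z‖)
    (hopt : ∀ u : V, Smooth u → ∀ z : V,
      ∫ x in closedBall (0:V) 1, Real.sign (ND x u) * ND x z ∂μ = L * ND u z)
    (htr : ∀ (w : V →L[ℝ] ℝ) (a : V), w a = 0 →
      ∫ x in closedBall (0:V) 1, Real.sign (w x) * ND x a ∂μ = 0) (a : V) :
    ∀ᵐ y ∂(μ.restrict (closedBall (0:V) 1)), L * (ND y a) ^ 2 =
      (ND y a) ^ 2 / ‖y‖ * ∫ x in closedBall (0:V) 1, Real.sign (ND y x) * ND x y ∂μ := by
  set ν := μ.restrict (closedBall (0:V) 1) with hν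
  haveI : IsFiniteMeasure ν :=
    ⟨by rw [hν, Measure.restrict_apply_univ]; exact measure_closedBall_lt_top⟩
  have hsm : ∀ᵐ y ∂ν, Smooth y := ae_restrict_of_ae (ae_smooth μ)
  -- the kernel
  have hmS : Measurable (fun p : V × V => Real.sign (ND p.2 p.1) * ND p.1 a * ND p.2 a) := by
    refine ((measurable_rsign.comp (measurable_nd₂.comp measurable_swap)).mul
      ((measurable_nd_apply a).comp measurable_fst)).mul
      ((measurable_nd_apply a).comp measurable_snd)
  have hbS : ∀ p : V × V, |Real.sign (ND p.2 p.1) * ND p.1 a * ND p.2 a| ≤ ‖a‖ * ‖a‖ := by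
    intro p
    rw [abs_mul]
    have h1 := fub_abs_mul_le (ND p.2 p.1) _ _ (nd_abs_le p.1 a)
    have h2 := nd_abs_le p.2 a
    gcongr
  have hiS : Integrable (Function.uncurry fun x y : V =>
      Real.sign (ND y x) * ND x a * ND y a) (ν.prod ν) :=
    Integrable.of_bound hmS.aestronglyMeasurable (‖a‖ * ‖a‖) (Filter.Eventually.of_forall hbS)
  have hswap := integral_integral_swap hiS
  -- left side
  have hl : ∫ x, ∫ y, Real.sign (ND y x) * ND x a * ND y a ∂ν ∂ν = ∫ x, L * (ND x a) ^ 2 ∂ν := by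
    refine integral_congr_ae ?_
    filter_upwards [hsm] with x hx
    have h1 : (fun y : V => Real.sign (ND y x) * ND x a * ND y a) =
        fun y : V => ND x a * (Real.sign (ND y x) * ND y a) := by
      funext y; ring
    simp only [h1]
    rw [integral_const_mul, hν, hopt x hx a]
    ring
  have hr : ∀ y : V, Smooth y → ∫ x, Real.sign (ND y x) * ND x a * ND y a ∂ν =
      (ND y a) ^ 2 / ‖y‖ * ∫ x, Real.sign (ND y x) * ND x y ∂ν := by
    intro y hy
    rw [integral_mul_const, hν, fub_formula μ htr hy a]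
    ring
  have hM : ∀ y : V, Smooth y → ∫ x, Real.sign (ND y x) * ND x y ∂ν ≤ L * ‖y‖ := by
    intro y hy
    rw [← hL y]
    refine integral_mono (fub_int1 μ y y) ?_ ?_
    · exact fub_integrable μ (measurable_nd_apply y).abs ‖y‖
        (fun x => by rw [abs_abs]; exact nd_abs_le x y)
    · intro x
      exact (le_abs_self _).trans (fub_abs_mul_le _ _ _ le_rfl)
  have hiL : Integrable (fun y : V => L * (ND y a) ^ 2) ν := by
    refine (fub_integrable μ ((measurable_nd_apply a).pow_const 2) (‖a‖ ^ 2) ?_).const_mul L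
    intro x
    rw [abs_pow]
    have := nd_abs_le x a
    gcongr
  have hiR : Integrable (fun y : V => ∫ x, Real.sign (ND y x) * ND x a * ND y a ∂ν) ν := by
    exact hiS.integral_prod_right
  have hz : ∫ y, (L * (ND y a) ^ 2 - ∫ x, Real.sign (ND y x) * ND x a * ND y a ∂ν) ∂ν = 0 := by
    rw [integral_sub hiL hiR, ← hswap, hl, sub_self]
  have hnn : 0 ≤ᵐ[ν] fun y : V => L * (ND y a) ^ 2 -
      ∫ x, Real.sign (ND y x) * ND x a * ND y a ∂ν := by
    filter_upwards [hsm] with y hy
    have hy0 : 0 < ‖y‖ := norm_pos_iff.2 (smooth_ne_zero hy)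
    simp only [Pi.zero_apply]
    rw [hr y hy, sub_nonneg]
    calc (ND y a) ^ 2 / ‖y‖ * ∫ x, Real.sign (ND y x) * ND x y ∂ν
        ≤ (ND y a) ^ 2 / ‖y‖ * (L * ‖y‖) := by
          have := hM y hy
          gcongr
      _ = L * (ND y a) ^ 2 := by field_simp
  have h0 := (integral_eq_zero_iff_of_nonneg_ae hnn (hiL.sub hiR)).1 hz
  filter_upwards [h0, hsm] with y h1 hy
  simp only [Pi.zero_apply] at h1
  rw [hr y hy] at h1
  linarith

theorem fub (μ : Measure V) [μ.IsAddHaarMeasure] [Nontrivial V] {L : ℝ}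
    (hL : ∀ z : V, ∫ x in closedBall (0:V) 1, |ND x z| ∂μ = L * ‖z‖)
    (hopt : ∀ u : V, Smooth u → ∀ z : V,
      ∫ x in closedBall (0:V) 1, Real.sign (ND x u) * ND x z ∂μ = L * ND u z)
    (htr : ∀ (w : V →L[ℝ] ℝ) (a : V), w a = 0 →
      ∫ x in closedBall (0:V) 1, Real.sign (w x) * ND x a ∂μ = 0) :
    ∀ᵐ y ∂μ, y ∈ closedBall (0:V) 1 → ∀ᵐ x ∂μ, x ∈ closedBall (0:V) 1 →
      |ND x y| = Real.sign (ND y x) * ND x y := by
  rw [← ae_restrict_iff' measurableSet_closedBall]
  have hsm : ∀ᵐ y ∂(μ.restrict (closedBall (0:V) 1)), Smooth y := ae_restrict_of_ae (ae_smooth μ)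
  have hall : ∀ᵐ y ∂(μ.restrict (closedBall (0:V) 1)), ∀ i, L * (ND y (finBasis ℝ V i)) ^ 2 =
      (ND y (finBasis ℝ V i)) ^ 2 / ‖y‖ *
        ∫ x in closedBall (0:V) 1, Real.sign (ND y x) * ND x y ∂μ :=
    ae_all_iff.2 fun i => fub_step μ hL hopt htr _
  filter_upwards [hsm, hall] with y hy hyb
  rw [← ae_restrict_iff' measurableSet_closedBall]
  have hy0 : 0 < ‖y‖ := norm_pos_iff.2 (smooth_ne_zero hy)
  -- some basis vector is not killed
  obtain ⟨i, hi⟩ : ∃ i, ND y (finBasis ℝ V i) ≠ 0 := by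
    by_contra hcon
    push Not at hcon
    have h1 : (ND y : V →ₗ[ℝ] ℝ) = 0 := (finBasis ℝ V).ext fun i => by simpa using hcon i
    have h2 : ND y y = 0 := by
      have := LinearMap.congr_fun h1 y
      simpa using this
    rw [nd_self hy] at h2
    exact hy0.ne' h2
  have hMy : ∫ x in closedBall (0:V) 1, Real.sign (ND y x) * ND x y ∂μ = L * ‖y‖ := by
    have h1 := hyb i
    have h2 : (ND y (finBasis ℝ V i)) ^ 2 ≠ 0 := pow_ne_zero 2 hi
    have h3 : (ND y (finBasis ℝ V i)) ^ 2 * (L * ‖y‖) = (ND y (finBasis ℝ V i)) ^ 2 *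
        ∫ x in closedBall (0:V) 1, Real.sign (ND y x) * ND x y ∂μ := by
      calc (ND y (finBasis ℝ V i)) ^ 2 * (L * ‖y‖)
          = (L * (ND y (finBasis ℝ V i)) ^ 2) * ‖y‖ := by ring
        _ = _ := by
            rw [h1]
            field_simp
    exact (mul_left_cancel₀ h2 h3).symm
  have hiA : Integrable (fun x : V => |ND x y|) (μ.restrict (closedBall (0:V) 1)) :=
    fub_integrable μ (measurable_nd_apply y).abs ‖y‖
        (fun x => by rw [abs_abs]; exact nd_abs_le x y)
  have hz : ∫ x in closedBall (0:V) 1, (|ND x y| - Real.sign (ND y x) * ND x y) ∂μ = 0 := by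
    rw [integral_sub hiA (fub_int1 μ y y), hL y, hMy, sub_self]
  have hnn : 0 ≤ᵐ[μ.restrict (closedBall (0:V) 1)] fun x : V =>
      |ND x y| - Real.sign (ND y x) * ND x y := by
    refine Filter.Eventually.of_forall fun x => ?_
    simp only [Pi.zero_apply, sub_nonneg]
    exact (le_abs_self _).trans (fub_abs_mul_le _ _ _ le_rfl)
  have h0 := (integral_eq_zero_iff_of_nonneg_ae hnn (hiA.sub (fub_int1 μ y y))).1 hz
  filter_upwards [h0] with x hx
  simp only [Pi.zero_apply] at hx
  linarith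

end TC
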